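import Mathlib

/-! Bootstrap percolation on the Hamming torus: definitions and the merging argument. -/

namespace Q291.HT

open Finset

/-- Two vertices of the Hamming torus are adjacent iff they differ in exactly one coordinate. -/
def Adj {n d : ℕ} (v w : Fin d → Fin n) : Prop := (univ.filter fun i => v i ≠ w i).card = 1

open Classical in
/-- One step of bootstrap percolation with threshold `θ`. -/
noncomputable def step {n d : ℕ} (θ : ℕ) (ω : (Fin d → Fin n) → Bool) :
    (Fin d → Fin n) → Bool :=
  fun v => decide (ω v = true ∨ θ ≤ (univ.filter fun w => Adj v w ∧ ω w = true).card)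

/-- The set of vertices which are open in the final configuration. -/
def final {n d : ℕ} (θ : ℕ) (ω : (Fin d → Fin n) → Bool) : Set (Fin d → Fin n) :=
  {v | ∃ j : ℕ, ((step θ)^[j] ω) v = true}

/-- Some `i`-dimensional subgraph is open in the final configuration. -/
def OpenSub {n d : ℕ} (θ i : ℕ) (ω : (Fin d → Fin n) → Bool) : Prop :=
  ∃ S : Finset (Fin d), S.card = i ∧ ∃ x : Fin d → Fin n,
    ∀ v : Fin d → Fin n, (∀ c, c ∉ S → v c = x c) → v ∈ final θ ω

open Classical in
/-- The probability of `E` when the values `ω v` are independent, `true` with probability `p`. -/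
noncomputable def prob {V : Type*} [Fintype V] (p : ℝ) (E : (V → Bool) → Prop) : ℝ :=
  ∑ ω ∈ univ.filter E, ∏ v, (if ω v = true then p else 1 - p)

/-- `p` is a value in `[0,1]` at which some `i`-dimensional subgraph becomes open with
probability exactly `1/2`. -/
def IsThreshold (n d θ i : ℕ) (p : ℝ) : Prop :=
  0 ≤ p ∧ p ≤ 1 ∧
    prob p (fun ω : (Fin d → Fin n) → Bool => OpenSub θ i ω) = 1 / 2

end Q291.HT
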