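import Pool.Agent.Q291.HT.Defs

/-! Merging of subgraphs at distance at most two. -/

namespace Q291.HT

open Finset

variable {n d : ℕ}

/-- coordinates in which `B` is not constant -/
noncomputable def free (B : Finset (Fin d → Fin n)) : Finset (Fin d) :=
  univ.filter fun i => ∃ x ∈ B, ∃ y ∈ B, x i ≠ y i

/-- the smallest subgraph containing `B` -/
def face (B : Finset (Fin d → Fin n)) : Set (Fin d → Fin n) :=
  {v | ∀ i, i ∉ free B → ∀ b ∈ B, v i = b i}

lemma mem_free {B : Finset (Fin d → Fin n)} {i : Fin d} :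
    i ∈ free B ↔ ∃ x ∈ B, ∃ y ∈ B, x i ≠ y i := by
  simp [free]

lemma free_mono {A B : Finset (Fin d → Fin n)} (h : A ⊆ B) : free A ⊆ free B := by
  intro i hi
  rw [mem_free] at hi ⊢
  obtain ⟨x, hx, y, hy, hxy⟩ := hi
  exact ⟨x, h hx, y, h hy, hxy⟩

lemma eq_of_not_free {B : Finset (Fin d → Fin n)} {i : Fin d} (hi : i ∉ free B)
    {x y : Fin d → Fin n} (hx : x ∈ B) (hy : y ∈ B) : x i = y i := by
  by_contra h
  exact hi (mem_free.2 ⟨x, hx, y, hy, h⟩)

lemma subset_face {B : Finset (Fin d → Fin n)} {b : Fin d → Fin n} (hb : b ∈ B) : b ∈ face B :=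
  fun _ hi _ hc => eq_of_not_free hi hb hc

/-- Sets of vertices which merge into one subgraph. -/
inductive Sp : Finset (Fin d → Fin n) → Prop
  | single (v : Fin d → Fin n) : Sp {v}
  | merge (A B : Finset (Fin d → Fin n)) (hA : Sp A) (hB : Sp B) (hd : Disjoint A B)
      (hc : (free (A ∪ B) \ (free A ∪ free B)).card ≤ 2) : Sp (A ∪ B)

lemma Sp.nonempty {A : Finset (Fin d → Fin n)} (h : Sp A) : A.Nonempty := by
  induction h with
  | single v => exact singleton_nonempty v
  | merge A B _ _ _ _ ihA _ => exact ihA.mono subset_union_left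

lemma free_card_merge (A B : Finset (Fin d → Fin n))
    (hc : (free (A ∪ B) \ (free A ∪ free B)).card ≤ 2) :
    (free (A ∪ B)).card ≤ (free A).card + (free B).card + 2 := by
  have h1 : free (A ∪ B) ⊆ (free (A ∪ B) \ (free A ∪ free B)) ∪ (free A ∪ free B) := by
    intro i hi
    by_cases h : i ∈ free A ∪ free B
    · exact mem_union_right _ h
    · exact mem_union_left _ (mem_sdiff.2 ⟨hi, h⟩)
  have h2 := card_le_card h1
  have h3 := card_union_le (free (A ∪ B) \ (free A ∪ free B)) (free A ∪ free B)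
  have h4 := card_union_le (free A) (free B)
  omega

lemma Sp.card_ge {A : Finset (Fin d → Fin n)} (h : Sp A) :
    (free A).card + 2 ≤ 2 * A.card := by
  induction h with
  | single v =>
    have : free ({v} : Finset (Fin d → Fin n)) = ∅ := by
      ext i
      simp [mem_free]
    simp [this]
  | merge A B _ _ hd hc ihA ihB =>
    have h1 := free_card_merge A B hc
    rw [card_union_of_disjoint hd]
    omega

/-- Aizenman–Lebowitz: there is a merged subset of an intermediate dimension. -/
lemma Sp.intermediate {A : Finset (Fin d → Fin n)} (h : Sp A) (k : ℕ) (hk : 1 ≤ k)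
    (hA : k ≤ (free A).card) :
    ∃ B ⊆ A, Sp B ∧ k ≤ (free B).card ∧ (free B).card ≤ 2 * k := by
  induction h with
  | single v =>
    exfalso
    have : free ({v} : Finset (Fin d → Fin n)) = ∅ := by
      ext i
      simp [mem_free]
    rw [this] at hA
    simp at hA
    omega
  | merge A B hA' hB' hd hc ihA ihB =>
    by_cases h1 : k ≤ (free A).card
    · obtain ⟨C, hC, h⟩ := ihA h1
      exact ⟨C, hC.trans subset_union_left, h⟩
    by_cases h2 : k ≤ (free B).card
    · obtain ⟨C, hC, h⟩ := ihB h2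
      exact ⟨C, hC.trans subset_union_right, h⟩
    refine ⟨A ∪ B, subset_rfl, Sp.merge A B hA' hB' hd hc, hA, ?_⟩
    have := free_card_merge A B hc
    omega

/-- A block decomposition of `A`. -/
def IsBlocks (A : Finset (Fin d → Fin n)) (P : Finset (Finset (Fin d → Fin n))) : Prop :=
  (∀ B ∈ P, Sp B) ∧ (∀ B ∈ P, ∀ C ∈ P, B ≠ C → Disjoint B C) ∧ P.biUnion id = A

lemma exists_blocks (A : Finset (Fin d → Fin n)) : ∃ P, IsBlocks A P := by
  refine ⟨A.image fun v => {v}, ?_, ?_, ?_⟩
  · intro B hB
    obtain ⟨v, _, rfl⟩ := mem_image.1 hB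
    exact Sp.single v
  · intro B hB C hC hne
    obtain ⟨v, _, rfl⟩ := mem_image.1 hB
    obtain ⟨w, _, rfl⟩ := mem_image.1 hC
    rw [disjoint_singleton]
    rintro rfl
    exact hne rfl
  · ext v
    simp

/-- In a block decomposition with the fewest blocks no two blocks can be merged. -/
lemma exists_min_blocks (A : Finset (Fin d → Fin n)) :
    ∃ P, IsBlocks A P ∧ ∀ B ∈ P, ∀ C ∈ P, B ≠ C →
      2 < (free (B ∪ C) \ (free B ∪ free C)).card := by
  classical
  let s : Set ℕ := {m | ∃ P, IsBlocks A P ∧ P.card = m}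
  have hs : ∃ m, m ∈ s := by
    obtain ⟨P, hP⟩ := exists_blocks A
    exact ⟨_, P, hP, rfl⟩
  obtain ⟨P, hP, hm⟩ : Nat.find hs ∈ s := Nat.find_spec hs
  refine ⟨P, hP, fun B hB C hC hne => ?_⟩
  by_contra hlt
  have hle : (free (B ∪ C) \ (free B ∪ free C)).card ≤ 2 := by omega
  have hBC : Sp (B ∪ C) := Sp.merge B C (hP.1 B hB) (hP.1 C hC) (hP.2.1 B hB C hC hne) hle
  let Q : Finset (Finset (Fin d → Fin n)) := insert (B ∪ C) ((P.erase B).erase C)
  have hQ : IsBlocks A Q := by
    refine ⟨?_, ?_, ?_⟩
    · intro D hD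
      rcases mem_insert.1 hD with rfl | hD
      · exact hBC
      · exact hP.1 D (mem_of_mem_erase (mem_of_mem_erase hD))
    · have key : ∀ D ∈ (P.erase B).erase C, Disjoint (B ∪ C) D := by
        intro D hD
        have hDC := (mem_erase.1 hD).1
        have hDB := (mem_erase.1 (mem_erase.1 hD).2).1
        have hDP := (mem_erase.1 (mem_erase.1 hD).2).2
        rw [disjoint_union_left]
        exact ⟨hP.2.1 B hB D hDP (Ne.symm hDB), hP.2.1 C hC D hDP (Ne.symm hDC)⟩
      intro D hD E hE hDE
      rcases mem_insert.1 hD with rfl | hD'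
      · rcases mem_insert.1 hE with rfl | hE'
        · exact absurd rfl hDE
        · exact key E hE'
      · rcases mem_insert.1 hE with rfl | hE'
        · exact (key D hD').symm
        · exact hP.2.1 D (mem_of_mem_erase (mem_of_mem_erase hD')) E
            (mem_of_mem_erase (mem_of_mem_erase hE')) hDE
    · rw [← hP.2.2]
      ext v
      simp only [Q, mem_biUnion, mem_insert, mem_erase, id]
      constructor
      · rintro ⟨D, rfl | hD, hv⟩
        · rcases mem_union.1 hv with h | h
          · exact ⟨B, hB, h⟩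
          · exact ⟨C, hC, h⟩
        · exact ⟨D, hD.2.2, hv⟩
      · rintro ⟨D, hD, hv⟩
        by_cases h1 : D = B
        · exact ⟨B ∪ C, Or.inl rfl, mem_union_left _ (h1 ▸ hv)⟩
        by_cases h2 : D = C
        · exact ⟨B ∪ C, Or.inl rfl, mem_union_right _ (h2 ▸ hv)⟩
        exact ⟨D, Or.inr ⟨h2, h1, hD⟩, hv⟩
  have hcard : Q.card < P.card := by
    have h1 : Q.card ≤ ((P.erase B).erase C).card + 1 := card_insert_le _ _
    have h2 : ((P.erase B).erase C).card = (P.erase B).card - 1 :=
      card_erase_of_mem (mem_erase.2 ⟨Ne.symm hne, hC⟩)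
    have h3 : (P.erase B).card = P.card - 1 := card_erase_of_mem hB
    have h4 : 0 < (P.erase B).card := card_pos.2 ⟨C, mem_erase.2 ⟨Ne.symm hne, hC⟩⟩
    omega
  have := Nat.find_min hs (m := Q.card) (by rw [← hm]; exact hcard)
  exact this ⟨Q, hQ, rfl⟩

/-- Two faces at distance at most two can be merged. -/
lemma close_faces {B C : Finset (Fin d → Fin n)} {w1 w2 : Fin d → Fin n} (h1 : w1 ∈ face B)
    (h2 : w2 ∈ face C) (s : Finset (Fin d)) (hs : ∀ i, i ∉ s → w1 i = w2 i) :
    free (B ∪ C) \ (free B ∪ free C) ⊆ s := by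
  intro i hi
  rw [mem_sdiff, mem_union, not_or] at hi
  obtain ⟨hi1, hiB, hiC⟩ := hi
  by_contra his
  obtain ⟨x, hx, y, hy, hxy⟩ := mem_free.1 hi1
  apply hxy
  have hB : ∀ b ∈ B, b i = w1 i := fun b hb => (h1 i hiB b hb).symm
  have hC : ∀ c ∈ C, c i = w1 i := fun c hc => by rw [hs i his]; exact (h2 i hiC c hc).symm
  have hall : ∀ z ∈ B ∪ C, z i = w1 i := fun z hz => by
    rcases mem_union.1 hz with h | h
    · exact hB z h
    · exact hC z h
  rw [hall x hx, hall y hy]

lemma adj_coord {v w : Fin d → Fin n} (h : Adj v w) :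
    ∃ i, v i ≠ w i ∧ ∀ j, j ≠ i → v j = w j := by
  unfold Adj at h
  obtain ⟨i, hi⟩ := card_eq_one.1 h
  refine ⟨i, ?_, ?_⟩
  · have : i ∈ univ.filter fun i => v i ≠ w i := by rw [hi]; exact mem_singleton_self i
    exact (mem_filter.1 this).2
  · intro j hj
    by_contra hne
    have : j ∈ univ.filter fun i => v i ≠ w i := mem_filter.2 ⟨mem_univ _, hne⟩
    rw [hi, mem_singleton] at this
    exact hj this

/-- The union of the faces of a minimal decomposition is closed under the dynamics. -/
lemma closed_step {A : Finset (Fin d → Fin n)} {P : Finset (Finset (Fin d → Fin n))}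
    (hP : IsBlocks A P) (hmin : ∀ B ∈ P, ∀ C ∈ P, B ≠ C →
      2 < (free (B ∪ C) \ (free B ∪ free C)).card) (θ : ℕ) (hθ : 2 ≤ θ)
    (ω : (Fin d → Fin n) → Bool) (hω : ∀ v, ω v = true → ∃ B ∈ P, v ∈ face B) :
    ∀ v, step θ ω v = true → ∃ B ∈ P, v ∈ face B := by
  classical
  intro v hv
  unfold step at hv
  rw [decide_eq_true_eq] at hv
  rcases hv with hv | hv
  · exact hω v hv
  have h2 : 1 < (univ.filter fun w => Adj v w ∧ ω w = true).card := by omega
  obtain ⟨w1, hw1, w2, hw2, hne⟩ := one_lt_card.1 h2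
  obtain ⟨_, ha1, ho1⟩ := mem_filter.1 hw1
  obtain ⟨_, ha2, ho2⟩ := mem_filter.1 hw2
  obtain ⟨B, hB, hw1B⟩ := hω w1 ho1
  obtain ⟨C, hC, hw2C⟩ := hω w2 ho2
  obtain ⟨i, hi, hi'⟩ := adj_coord ha1
  obtain ⟨j, hj, hj'⟩ := adj_coord ha2
  by_cases hBC : B = C
  · subst hBC
    refine ⟨B, hB, ?_⟩
    obtain ⟨b, hb⟩ := (hP.1 B hB).nonempty
    have hfree : i ∈ free B := by
      by_contra hnf
      have h12 : w1 i = w2 i := by rw [hw1B i hnf b hb, hw2C i hnf b hb]
      have hij : i = j := by
        by_contra hij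
        exact hi ((hj' i hij).trans h12.symm)
      subst hij
      apply hne
      funext c
      by_cases hc : c = i
      · subst hc; exact h12
      · rw [← hi' c hc, hj' c hc]
    intro c hc b' hb'
    have hci : c ≠ i := by rintro rfl; exact hc hfree
    rw [hi' c hci]
    exact hw1B c hc b' hb'
  · exfalso
    have h3 := close_faces hw1B hw2C {i, j} (fun c hc => by
      rw [mem_insert, mem_singleton, not_or] at hc
      rw [← hi' c hc.1, hj' c hc.2])
    have h4 := card_le_card h3
    have h5 : ({i, j} : Finset (Fin d)).card ≤ 2 := card_le_two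
    have h6 := hmin B hB C hC hBC
    omega

/-- If all vertices become open then the open set contains a merged set of an
intermediate dimension. -/
theorem exists_sp_of_full (θ : ℕ) (hθ : 2 ≤ θ) (hn : 2 ≤ n) (ω : (Fin d → Fin n) → Bool)
    (hfull : ∀ v, v ∈ final θ ω) (k : ℕ) (hk : 1 ≤ k) (hkd : k ≤ d) :
    ∃ B : Finset (Fin d → Fin n), (∀ v ∈ B, ω v = true) ∧ Sp B ∧ k ≤ (free B).card ∧
      (free B).card ≤ 2 * k := by
  classical
  obtain ⟨P, hP, hmin⟩ := exists_min_blocks (univ.filter fun v => ω v = true)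
  have hiter : ∀ j v, ((step θ)^[j] ω) v = true → ∃ B ∈ P, v ∈ face B := by
    intro j
    induction j with
    | zero =>
      intro v hv
      have hv' : v ∈ P.biUnion id := by
        rw [hP.2.2]
        exact mem_filter.2 ⟨mem_univ _, hv⟩
      obtain ⟨B, hB, hvB⟩ := mem_biUnion.1 hv'
      exact ⟨B, hB, subset_face hvB⟩
    | succ j ih =>
      intro v hv
      rw [Function.iterate_succ_apply'] at hv
      exact closed_step hP hmin θ hθ _ ih v hv
  have hall : ∀ v, ∃ B ∈ P, v ∈ face B := fun v => by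
    obtain ⟨j, hj⟩ := hfull v
    exact hiter j v hj
  -- one block covers everything
  have v0 : Fin d → Fin n := fun _ => ⟨0, by omega⟩
  obtain ⟨B, hB, hv0⟩ := hall v0
  have hcov : ∀ (s : Finset (Fin d)) (u : Fin d → Fin n), (∀ i, i ∉ s → u i = v0 i) →
      u ∈ face B := by
    intro s
    induction s using Finset.induction_on with
    | empty =>
      intro u hu
      have : u = v0 := funext fun i => hu i (notMem_empty i)
      rw [this]; exact hv0
    | insert i s hi ih =>
      intro u hu
      have hu' : Function.update u i (v0 i) ∈ face B := by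
        apply ih
        intro c hc
        by_cases hci : c = i
        · subst hci; simp
        · rw [Function.update_of_ne hci]
          exact hu c (by simp [hci, hc])
      obtain ⟨C, hC, huC⟩ := hall u
      by_cases hBC : B = C
      · rw [hBC]; exact huC
      · exfalso
        have h3 := close_faces hu' huC {i} (fun c hc => by
          rw [mem_singleton] at hc
          rw [Function.update_of_ne hc])
        have h4 := card_le_card h3
        have h6 := hmin B hB C hC hBC
        simp at h4
        omega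
  have hBall : ∀ u, u ∈ face B := fun u => hcov univ u (fun i hi => absurd (mem_univ i) hi)
  have hfree : free B = univ := by
    rw [eq_univ_iff_forall]
    intro i
    by_contra hi
    obtain ⟨b, hb⟩ := (hP.1 B hB).nonempty
    have h1 := hBall (fun _ => ⟨0, by omega⟩) i hi b hb
    have h2 := hBall (fun _ => ⟨1, by omega⟩) i hi b hb
    rw [← h2] at h1
    simp at h1
  have hcard : (free B).card = d := by rw [hfree]; simp
  obtain ⟨C, hCB, hC, hC1, hC2⟩ := (hP.1 B hB).intermediate k hk (by omega)
  refine ⟨C, fun v hv => ?_, hC, hC1, hC2⟩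
  have : v ∈ P.biUnion id := mem_biUnion.2 ⟨B, hB, hCB hv⟩
  rw [hP.2.2] at this
  exact (mem_filter.1 this).2

end Q291.HT
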