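import Pool.Agent.Q291.HT.Plane
import Pool.Agent.Q291.HT.Merge

/-! Bounds for the two probabilities and for the thresholds. -/

namespace Q291.HT

open Finset

/-! ### The plane threshold -/

lemma plane_prob {n e : ℕ} (θ : ℕ) (h : θ ≤ n) (hθ : 1 ≤ θ) {p : ℝ} (h0 : 0 ≤ p) (h1 : p ≤ 1) :
    1 - (1 - p ^ (θ * (θ + 1) / 2)) ^ (n ^ e) ≤
      prob p (fun ω : (Fin (e + 2) → Fin n) → Bool => OpenSub θ 2 ω) := by
  classical
  have h2 := prob_disjoint (V := Fin (e + 2) → Fin n) p (univ : Finset (Fin e → Fin n))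
    (pat θ) (θ * (θ + 1) / 2) (fun x _ => pat_card θ h x)
    (fun x _ x' _ hne => pat_disjoint θ x x' hne)
  have h3 : prob p (fun ω : (Fin (e + 2) → Fin n) → Bool => ¬ OpenSub θ 2 ω) ≤
      prob p (fun ω : (Fin (e + 2) → Fin n) → Bool =>
        ∀ x ∈ (univ : Finset (Fin e → Fin n)), ¬ ∀ v ∈ pat θ x, ω v = true) := by
    apply prob_mono h0 h1
    intro ω hω x _ hx
    exact hω (openSub_of_pat θ h hθ x ω hx)
  rw [h2, prob_not] at h3
  have h4 : (univ : Finset (Fin e → Fin n)).card = n ^ e := by simp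
  rw [h4] at h3
  linarith

lemma plane_threshold {n e : ℕ} (θ : ℕ) (h : θ ≤ n) (hθ : 1 ≤ θ) (hn : 2 ≤ n) {p : ℝ}
    (hp : IsThreshold n (e + 2) θ 2 p) (hp0 : 0 < p) :
    Real.log p / Real.log n ≤ - (2 * (e : ℝ) / (θ * (θ + 1))) := by
  obtain ⟨h0, h1, hhalf⟩ := hp
  by_contra hlt
  push Not at hlt
  set m := θ * (θ + 1) / 2 with hm
  have hm2 : 2 * m = θ * (θ + 1) := Nat.mul_div_cancel' (Nat.even_mul_succ_self θ).two_dvd
  have hmR : 2 * (m : ℝ) = θ * (θ + 1) := by exact_mod_cast hm2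
  have hθR : (1:ℝ) ≤ θ := by exact_mod_cast hθ
  have hmpos : 0 < (m : ℝ) := by nlinarith
  have hnR : (2:ℝ) ≤ n := by exact_mod_cast hn
  have hlog : 0 < Real.log n := Real.log_pos (by linarith)
  have hlt' : - ((e : ℝ) / m) < Real.log p / Real.log n := by
    have : 2 * (e : ℝ) / (θ * (θ + 1)) = (e : ℝ) / m := by
      rw [← hmR]
      field_simp
    rw [← this]; exact hlt
  rw [lt_div_iff₀ hlog] at hlt'
  have h3 : 0 ≤ Real.log (p ^ m * (n : ℝ) ^ e) := by
    rw [Real.log_mul (by positivity) (by positivity), Real.log_pow, Real.log_pow]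
    have h4 : - ((e : ℝ) / m) * Real.log n * m < Real.log p * m :=
      mul_lt_mul_of_pos_right hlt' hmpos
    have h5 : - ((e : ℝ) / m) * Real.log n * m = - (e * Real.log n) := by
      field_simp
    linarith
  have h6 : 1 ≤ p ^ m * (n : ℝ) ^ e := by
    by_contra hc
    push Not at hc
    have : Real.log (p ^ m * (n : ℝ) ^ e) < 0 := Real.log_neg (by positivity) hc
    linarith
  have h7 : (1 - p ^ m) ^ (n ^ e) ≤ Real.exp (-1) := by
    have h8 : 1 - p ^ m ≤ Real.exp (-(p ^ m)) := by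
      have := Real.add_one_le_exp (-(p ^ m))
      linarith
    have h9 : 0 ≤ 1 - p ^ m := by
      have := pow_le_one₀ (n := m) h0 h1
      linarith
    calc (1 - p ^ m) ^ (n ^ e) ≤ (Real.exp (-(p ^ m))) ^ (n ^ e) := pow_le_pow_left₀ h9 h8 _
      _ = Real.exp (-(p ^ m * (n : ℝ) ^ e)) := by
        rw [← Real.exp_nat_mul]
        congr 1
        push_cast
        ring
      _ ≤ Real.exp (-1) := Real.exp_le_exp.2 (by linarith)
  have h10 := plane_prob (n := n) (e := e) θ h hθ h0 h1
  rw [hhalf] at h10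
  have h11 : Real.exp (-1) < 1 / 2 := by
    rw [Real.exp_neg, inv_eq_one_div]
    have := Real.exp_one_gt_d9
    rw [div_lt_div_iff₀ (Real.exp_pos 1) (by norm_num)]
    linarith
  linarith

/-! ### The threshold for the whole torus -/

/-- the sub-torus through `v` with free coordinates `S` -/
def slab {n d : ℕ} (S : Finset (Fin d)) (v : Fin d → Fin n) : Finset (Fin d → Fin n) :=
  Fintype.piFinset fun c => if c ∈ S then univ else {v c}

lemma slab_card {n d : ℕ} (S : Finset (Fin d)) (v : Fin d → Fin n) :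
    (slab S v).card = n ^ S.card := by
  unfold slab
  rw [Fintype.card_piFinset]
  have : ∀ c : Fin d, (if c ∈ S then (univ : Finset (Fin n)) else {v c}).card =
      if c ∈ S then n else 1 := fun c => by
    split_ifs <;> simp
  simp_rw [this]
  rw [prod_ite_mem, univ_inter, prod_const]

/-- the small clusters -/
noncomputable def clusters (n d r : ℕ) : Finset (Finset (Fin d → Fin n)) := by
  classical
  exact univ.filter fun C => C.card = r + 1 ∧ (free C).card ≤ 4 * r

lemma clusters_card (n d r : ℕ) (hn : 1 ≤ n) :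
    (clusters n d r).card ≤ 2 ^ d * n ^ (d + 4 * r ^ 2) := by
  classical
  have h1 : clusters n d r ⊆
      ((univ : Finset (Finset (Fin d))).filter fun S => S.card ≤ 4 * r).biUnion fun S =>
        (univ : Finset (Fin d → Fin n)).biUnion fun v =>
          (powersetCard r (slab S v)).image fun D => insert v D := by
    intro C hC
    unfold clusters at hC
    obtain ⟨_, hC1, hC2⟩ := mem_filter.1 hC
    obtain ⟨v, hv⟩ : C.Nonempty := card_pos.1 (by omega)
    rw [mem_biUnion]
    refine ⟨free C, mem_filter.2 ⟨mem_univ _, hC2⟩, ?_⟩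
    rw [mem_biUnion]
    refine ⟨v, mem_univ _, ?_⟩
    rw [mem_image]
    refine ⟨C.erase v, ?_, insert_erase hv⟩
    rw [mem_powersetCard]
    constructor
    · intro w hw
      unfold slab
      rw [Fintype.mem_piFinset]
      intro c
      split_ifs with hc
      · exact mem_univ _
      · rw [mem_singleton]
        exact eq_of_not_free hc (mem_of_mem_erase hw) hv
    · rw [card_erase_of_mem hv, hC1]
      rfl
  calc (clusters n d r).card ≤ _ := card_le_card h1
    _ ≤ ∑ S ∈ ((univ : Finset (Finset (Fin d))).filter fun S => S.card ≤ 4 * r),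
        ((univ : Finset (Fin d → Fin n)).biUnion fun v =>
          (powersetCard r (slab S v)).image fun D => insert v D).card := card_biUnion_le
    _ ≤ ∑ S ∈ ((univ : Finset (Finset (Fin d))).filter fun S => S.card ≤ 4 * r),
        ∑ v : Fin d → Fin n, ((powersetCard r (slab S v)).image fun D => insert v D).card :=
        sum_le_sum fun S _ => card_biUnion_le
    _ ≤ ∑ S ∈ ((univ : Finset (Finset (Fin d))).filter fun S => S.card ≤ 4 * r),
        ∑ v : Fin d → Fin n, n ^ (4 * r ^ 2) := by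
        apply sum_le_sum
        intro S hS
        apply sum_le_sum
        intro v _
        have hS' := (mem_filter.1 hS).2
        calc ((powersetCard r (slab S v)).image fun D => insert v D).card
            ≤ (powersetCard r (slab S v)).card := card_image_le
          _ = (n ^ S.card).choose r := by rw [card_powersetCard, slab_card]
          _ ≤ (n ^ S.card) ^ r := Nat.choose_le_pow _ _
          _ = n ^ (S.card * r) := by rw [pow_mul]
          _ ≤ n ^ (4 * r ^ 2) := Nat.pow_le_pow_right hn (by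
              calc S.card * r ≤ 4 * r * r := Nat.mul_le_mul_right r hS'
                _ = 4 * r ^ 2 := by ring)
    _ = (((univ : Finset (Finset (Fin d))).filter fun S => S.card ≤ 4 * r)).card *
        (n ^ d * n ^ (4 * r ^ 2)) := by
        rw [sum_const, sum_const, smul_eq_mul, smul_eq_mul]
        simp
    _ ≤ 2 ^ d * (n ^ d * n ^ (4 * r ^ 2)) := by
        apply Nat.mul_le_mul_right
        calc _ ≤ (univ : Finset (Finset (Fin d))).card := card_filter_le _ _
          _ = 2 ^ d := by simp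
    _ = 2 ^ d * n ^ (d + 4 * r ^ 2) := by rw [pow_add]

lemma full_prob {n d : ℕ} (θ r : ℕ) (hθ : 2 ≤ θ) (hn : 2 ≤ n) (hr : 1 ≤ r) (hrd : 2 * r ≤ d)
    {q : ℝ} (h0 : 0 ≤ q) (h1 : q ≤ 1) :
    prob q (fun ω : (Fin d → Fin n) → Bool => OpenSub θ d ω) ≤
      2 ^ d * (n : ℝ) ^ (d + 4 * r ^ 2) * q ^ (r + 1) := by
  classical
  have h2 : prob q (fun ω : (Fin d → Fin n) → Bool => OpenSub θ d ω) ≤
      prob q (fun ω : (Fin d → Fin n) → Bool =>
        ∃ C ∈ clusters n d r, ∀ v ∈ C, ω v = true) := by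
    apply prob_mono h0 h1
    intro ω hω
    obtain ⟨S, hS, x, hx⟩ := hω
    have hSu : S = univ := by
      rw [← card_eq_iff_eq_univ, hS]
      simp
    subst hSu
    have hfull : ∀ v, v ∈ final θ ω := fun v => hx v (fun c hc => absurd (mem_univ c) hc)
    obtain ⟨B, hB, hSp, hk1, hk2⟩ := exists_sp_of_full θ hθ hn ω hfull (2 * r) (by omega) hrd
    have hcard := hSp.card_ge
    obtain ⟨C, hCB, hC⟩ := exists_subset_card_eq (s := B) (n := r + 1) (by omega)
    refine ⟨C, ?_, fun v hv => hB v (hCB hv)⟩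
    unfold clusters
    refine mem_filter.2 ⟨mem_univ _, hC, ?_⟩
    have := card_le_card (free_mono hCB)
    omega
  have h3 := prob_union h0 h1 (clusters n d r)
    (fun C (ω : (Fin d → Fin n) → Bool) => ∀ v ∈ C, ω v = true)
  have h4 : ∑ C ∈ clusters n d r,
      prob q (fun ω : (Fin d → Fin n) → Bool => ∀ v ∈ C, ω v = true) =
      (clusters n d r).card * q ^ (r + 1) := by
    rw [sum_congr rfl (fun C hC => prob_forall q C)]
    rw [sum_congr rfl (g := fun _ => q ^ (r + 1)), sum_const, nsmul_eq_mul]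
    intro C hC
    unfold clusters at hC
    rw [(mem_filter.1 hC).2.1]
  have h5 : ((clusters n d r).card : ℝ) ≤ 2 ^ d * (n : ℝ) ^ (d + 4 * r ^ 2) := by
    exact_mod_cast clusters_card n d r (by omega)
  calc _ ≤ _ := h2
    _ ≤ _ := h3
    _ = _ := h4
    _ ≤ _ := mul_le_mul_of_nonneg_right h5 (by positivity)

lemma full_threshold {d : ℕ} (hd : 2 ≤ d) (θ : ℕ) (hθ : 2 ≤ θ) :
    ∃ N : ℕ, ∀ n : ℕ, N ≤ n → ∀ q : ℝ, IsThreshold n d θ d q → 0 < q →
      - (4 * Real.sqrt d + 4) ≤ Real.log q / Real.log n := by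
  -- choice of `r`
  have hdR : (2:ℝ) ≤ d := by exact_mod_cast hd
  obtain ⟨s, hs⟩ : ∃ s, s = Real.sqrt d := ⟨_, rfl⟩
  have hs0 : 0 < s := by rw [hs]; apply Real.sqrt_pos.2; linarith
  have hsq : s ^ 2 = d := by rw [hs]; exact Real.sq_sqrt (by linarith)
  obtain ⟨r, hr⟩ : ∃ r : ℕ, r = ⌈s / 2⌉₊ := ⟨_, rfl⟩
  have hr1 : s / 2 ≤ r := by rw [hr]; exact Nat.le_ceil _
  have hr2 : (r : ℝ) < s / 2 + 1 := by rw [hr]; exact Nat.ceil_lt_add_one (by positivity)
  have hrpos : 1 ≤ r := by
    rw [hr]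
    exact Nat.one_le_ceil_iff.2 (by positivity)
  have hrR : (1:ℝ) ≤ r := by exact_mod_cast hrpos
  have h2r : 2 * r ≤ d := by
    by_cases h4 : 4 ≤ d
    · have h4R : (4:ℝ) ≤ d := by exact_mod_cast h4
      have hs2 : 2 ≤ s := by nlinarith
      have : (2 * (r:ℝ)) < d + 1 := by nlinarith
      have : 2 * r < d + 1 := by exact_mod_cast this
      omega
    · have h4R : (d:ℝ) < 4 := by
        have : d < 4 := by omega
        exact_mod_cast this
      have hs2 : s < 2 := by nlinarith
      have : (r:ℝ) < 2 := by linarith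
      have : r < 2 := by exact_mod_cast this
      omega
  -- the exponent
  obtain ⟨δ, hδ⟩ : ∃ δ : ℝ, δ = (4 * s + 4) * (r + 1) - (d + 4 * r ^ 2) := ⟨_, rfl⟩
  have hδpos : 0 < δ := by
    rw [hδ, ← hsq]
    have h1 : s ^ 2 ≤ 4 * (r:ℝ) ^ 2 := by nlinarith
    have h2 : 2 * (r:ℝ) - 2 < s := by linarith
    nlinarith
  -- large `n`
  obtain ⟨N, hN⟩ : ∃ N : ℕ, Real.exp (((d:ℝ) + 1) * Real.log 2 / δ) < N := exists_nat_gt _
  refine ⟨max N 2, fun n hn q hq hq0 => ?_⟩
  have hn2 : 2 ≤ n := le_trans (le_max_right _ _) hn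
  have hnN : (N:ℝ) ≤ n := by exact_mod_cast le_trans (le_max_left _ _) hn
  have hnR : (2:ℝ) ≤ n := by exact_mod_cast hn2
  have hlog : 0 < Real.log n := Real.log_pos (by linarith)
  obtain ⟨h0, h1, hhalf⟩ := hq
  rw [← hs]
  by_contra hlt
  push Not at hlt
  rw [div_lt_iff₀ hlog] at hlt
  have hb := full_prob (n := n) (d := d) θ r hθ hn2 hrpos h2r h0 h1
  rw [hhalf] at hb
  have hlogN : ((d:ℝ) + 1) * Real.log 2 < δ * Real.log n := by
    have h3 : Real.exp (((d:ℝ) + 1) * Real.log 2 / δ) < n := lt_of_lt_of_le hN hnN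
    have h4 : ((d:ℝ) + 1) * Real.log 2 / δ < Real.log n :=
      (Real.lt_log_iff_exp_lt (by linarith)).2 h3
    rw [div_lt_iff₀ hδpos] at h4
    linarith
  have hpos : 0 < 2 ^ d * (n : ℝ) ^ (d + 4 * r ^ 2) * q ^ (r + 1) := by positivity
  have h5 : Real.log (2 ^ d * (n : ℝ) ^ (d + 4 * r ^ 2) * q ^ (r + 1)) < Real.log (1 / 2) := by
    rw [Real.log_mul (by positivity) (by positivity), Real.log_mul (by positivity) (by positivity),
      Real.log_pow, Real.log_pow, Real.log_pow, one_div, Real.log_inv]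
    push_cast
    have h6 : ((r:ℝ) + 1) * Real.log q < ((r:ℝ) + 1) * (-(4 * s + 4) * Real.log n) :=
      mul_lt_mul_of_pos_left hlt (by positivity)
    have h7 : δ * Real.log n = (4 * s + 4) * (r + 1) * Real.log n
        - (d + 4 * (r:ℝ) ^ 2) * Real.log n := by rw [hδ]; ring
    nlinarith
  have h8 : 2 ^ d * (n : ℝ) ^ (d + 4 * r ^ 2) * q ^ (r + 1) < 1 / 2 :=
    (Real.log_lt_log_iff hpos (by norm_num)).1 h5
  linarith

/-! ### Existence of thresholds -/

lemma final_false {n d θ : ℕ} (hθ : 1 ≤ θ) (v : Fin d → Fin n) :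
    v ∉ final θ (fun _ => false) := by
  classical
  rintro ⟨j, hj⟩
  have : ∀ j, (step θ)^[j] (fun _ : Fin d → Fin n => false) = fun _ => false := by
    intro j
    induction j with
    | zero => rfl
    | succ j ih =>
      rw [Function.iterate_succ_apply', ih]
      funext w
      unfold step
      rw [decide_eq_false_iff_not]
      rintro (h | h)
      · exact absurd h (by simp)
      · simp at h
        omega
  rw [this j] at hj
  exact absurd hj (by simp)

lemma exists_threshold {n d θ i : ℕ} (hn : 1 ≤ n) (hθ : 1 ≤ θ) (hi : i ≤ d) :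
    ∃ p, IsThreshold n d θ i p := by
  apply exists_half
  · rintro ⟨S, _, x, hx⟩
    exact final_false hθ x (hx x (fun _ _ => rfl))
  · obtain ⟨S, _, hS⟩ := exists_subset_card_eq (s := (univ : Finset (Fin d))) (n := i)
      (by simpa using hi)
    exact ⟨S, hS, fun _ => ⟨0, by omega⟩, fun v _ => final_of_open rfl⟩

lemma threshold_pos {n d θ i : ℕ} (hθ : 1 ≤ θ) {p : ℝ} (hp : IsThreshold n d θ i p) : 0 < p := by
  obtain ⟨h0, h1, hhalf⟩ := hp
  rcases h0.lt_or_eq with h | h
  · exact h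
  · exfalso
    subst h
    rw [prob_zero] at hhalf
    · norm_num at hhalf
    · rintro ⟨S, _, x, hx⟩
      exact final_false hθ x (hx x (fun _ _ => rfl))

/-- The exponent gap. -/
theorem gap (θ d : ℕ) (hθ : 2 ≤ θ) (hd : 2 ≤ d) :
    ∃ N : ℕ, ∀ n : ℕ, N ≤ n →
      (∃ p, IsThreshold n d θ 2 p) ∧ (∃ q, IsThreshold n d θ d q) ∧
      ∀ p q : ℝ, IsThreshold n d θ 2 p → IsThreshold n d θ d q →
        2 * ((d : ℝ) - 2) / (θ * (θ + 1)) - (4 * Real.sqrt d + 4) ≤
          Real.log q / Real.log n - Real.log p / Real.log n := by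
  obtain ⟨N, hN⟩ := full_threshold hd θ hθ
  refine ⟨max N (max θ 2), fun n hn => ⟨?_, ?_, ?_⟩⟩
  · exact exists_threshold (by have := le_trans (le_max_right _ _) (le_trans (le_max_right _ _) hn); omega)
      (by omega) hd
  · exact exists_threshold (by have := le_trans (le_max_right _ _) (le_trans (le_max_right _ _) hn); omega)
      (by omega) le_rfl
  · intro p q hp hq
    have hq' := hN n (le_trans (le_max_left _ _) hn) q hq (threshold_pos (by omega) hq)
    obtain ⟨e, rfl⟩ : ∃ e, d = e + 2 := ⟨d - 2, by omega⟩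
    have hp' := plane_threshold θ (le_trans (le_max_left _ _) (le_trans (le_max_right _ _) hn))
      (by omega) (le_trans (le_max_right _ _) (le_trans (le_max_right _ _) hn)) hp
      (threshold_pos (by omega) hp)
    have hcast : ((e + 2 : ℕ) : ℝ) - 2 = e := by push_cast; ring
    rw [hcast]
    linarith

end Q291.HT
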