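import Pool.Agent.Q291.HT.Prob

/-! A triangular pattern opens a whole plane. -/

namespace Q291.HT

open Finset

variable {n d : ℕ}

lemma final_mono_stage {θ : ℕ} {ω : (Fin d → Fin n) → Bool} {v : Fin d → Fin n} {i j : ℕ}
    (hij : i ≤ j) (h : ((step θ)^[i] ω) v = true) : ((step θ)^[j] ω) v = true := by
  induction j, hij using Nat.le_induction with
  | base => exact h
  | succ j _ ih =>
    rw [Function.iterate_succ_apply']
    unfold step
    rw [decide_eq_true_eq]
    exact Or.inl ih

lemma final_of_open {θ : ℕ} {ω : (Fin d → Fin n) → Bool} {v : Fin d → Fin n}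
    (h : ω v = true) : v ∈ final θ ω := ⟨0, h⟩

lemma final_common {θ : ℕ} {ω : (Fin d → Fin n) → Bool} (W : Finset (Fin d → Fin n))
    (hW : ∀ w ∈ W, w ∈ final θ ω) : ∃ j, ∀ w ∈ W, ((step θ)^[j] ω) w = true := by
  classical
  induction W using Finset.induction_on with
  | empty => exact ⟨0, fun w hw => absurd hw (notMem_empty w)⟩
  | insert w W _ ih =>
    obtain ⟨j, hj⟩ := ih (fun u hu => hW u (mem_insert_of_mem hu))
    obtain ⟨i, hi⟩ := hW w (mem_insert_self w W)
    refine ⟨max i j, fun u hu => ?_⟩
    rcases mem_insert.1 hu with rfl | hu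
    · exact final_mono_stage (le_max_left _ _) hi
    · exact final_mono_stage (le_max_right _ _) (hj u hu)

/-- A vertex with `θ` finally open neighbours is finally open. -/
lemma final_closed {θ : ℕ} {ω : (Fin d → Fin n) → Bool} {v : Fin d → Fin n}
    (g : ℕ → Fin d → Fin n) (hinj : Set.InjOn g (range θ : Set ℕ))
    (hadj : ∀ k ∈ range θ, Adj v (g k)) (hg : ∀ k ∈ range θ, g k ∈ final θ ω) :
    v ∈ final θ ω := by
  classical
  obtain ⟨j, hj⟩ := final_common ((range θ).image g) (fun w hw => by
    obtain ⟨k, hk, rfl⟩ := mem_image.1 hw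
    exact hg k hk)
  refine ⟨j + 1, ?_⟩
  rw [Function.iterate_succ_apply']
  unfold step
  rw [decide_eq_true_eq]
  right
  calc θ = ((range θ).image g).card := by rw [card_image_of_injOn hinj, card_range]
    _ ≤ _ := by
      apply card_le_card
      intro w hw
      obtain ⟨k, hk, rfl⟩ := mem_image.1 hw
      exact mem_filter.2 ⟨mem_univ _, hadj k hk, hj _ hw⟩

/-- the point of the plane over `x` with first two coordinates `a`, `b` -/
def pt {e : ℕ} (x : Fin e → Fin n) (a b : Fin n) : Fin (e + 2) → Fin n :=
  Fin.cons a (Fin.cons b x : Fin (e + 1) → Fin n)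

lemma pt_zero {e : ℕ} (x : Fin e → Fin n) (a b : Fin n) : pt x a b 0 = a := rfl

lemma pt_one {e : ℕ} (x : Fin e → Fin n) (a b : Fin n) : pt x a b 1 = b := rfl

lemma pt_succ {e : ℕ} (x : Fin e → Fin n) (a b : Fin n) (i : Fin e) :
    pt x a b i.succ.succ = x i := by
  simp [pt]

lemma pt_inj {e : ℕ} {x x' : Fin e → Fin n} {a b a' b' : Fin n} (h : pt x a b = pt x' a' b') :
    x = x' ∧ a = a' ∧ b = b' := by
  refine ⟨funext fun i => ?_, ?_, ?_⟩
  · have := congrFun h i.succ.succ
    rwa [pt_succ, pt_succ] at this
  · have := congrFun h 0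
    rwa [pt_zero, pt_zero] at this
  · have := congrFun h 1
    rwa [pt_one, pt_one] at this

lemma adj_first {e : ℕ} (x : Fin e → Fin n) (a a' b : Fin n) (h : a ≠ a') :
    Adj (pt x a b) (pt x a' b) := by
  unfold Adj
  rw [card_eq_one]
  refine ⟨0, ?_⟩
  ext i
  simp only [mem_filter, mem_univ, true_and, mem_singleton]
  constructor
  · intro hi
    by_contra hne
    apply hi
    refine Fin.cases (fun h => absurd rfl h) (fun i _ => ?_) i hne
    rfl
  · rintro rfl
    exact h

lemma adj_second {e : ℕ} (x : Fin e → Fin n) (a b b' : Fin n) (h : b ≠ b') :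
    Adj (pt x a b) (pt x a b') := by
  unfold Adj
  rw [card_eq_one]
  refine ⟨1, ?_⟩
  ext i
  simp only [mem_filter, mem_univ, true_and, mem_singleton]
  constructor
  · intro hi
    by_contra hne
    apply hi
    revert hne
    refine Fin.cases (fun _ => rfl) (fun i => ?_) i
    refine Fin.cases (fun h => absurd rfl h) (fun i _ => ?_) i
    rw [pt_succ, pt_succ]
  · rintro rfl
    exact h

/-- the triangular pattern -/
def tri (n θ : ℕ) : Finset (Fin n × Fin n) := univ.filter fun q => q.1.val + q.2.val < θ

/-- the pattern in the plane over `x` -/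
noncomputable def pat {e : ℕ} (θ : ℕ) (x : Fin e → Fin n) : Finset (Fin (e + 2) → Fin n) :=
  (tri n θ).image fun q => pt x q.1 q.2

lemma tri_card (n θ : ℕ) (h : θ ≤ n) : (tri n θ).card = θ * (θ + 1) / 2 := by
  classical
  have h1 : tri n θ = (univ : Finset (Fin n)).biUnion fun a =>
      ((univ : Finset (Fin n)).filter fun b => a.val + b.val < θ).image fun b => (a, b) := by
    ext ⟨a, b⟩
    simp [tri]
  rw [h1, card_biUnion]
  · have h2 : ∀ a ∈ (univ : Finset (Fin n)),
        (((univ : Finset (Fin n)).filter fun b => a.val + b.val < θ).image fun b => (a, b)).card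
          = θ - a.val := by
      intro a _
      rw [card_image_of_injective _ (Prod.mk_right_injective a)]
      have h3 : ((univ : Finset (Fin n)).filter fun b => a.val + b.val < θ).map Fin.valEmbedding
          = range (θ - a.val) := by
        ext k
        simp only [mem_map, mem_filter, mem_univ, true_and, Fin.valEmbedding_apply, mem_range]
        constructor
        · rintro ⟨b, hb, rfl⟩
          omega
        · intro hk
          exact ⟨⟨k, by omega⟩, by simp only; omega, rfl⟩
      rw [← card_map Fin.valEmbedding, h3, card_range]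
    rw [sum_congr rfl h2]
    rw [Fin.sum_univ_eq_sum_range (fun a => θ - a) n]
    have h4 : ∑ i ∈ range n, (θ - i) = ∑ i ∈ range θ, (θ - i) := by
      rw [← sum_range_add_sum_Ico _ h]
      rw [sum_eq_zero (s := Ico θ n) (fun i hi => by
        have := (mem_Ico.1 hi).1
        omega), add_zero]
    rw [h4]
    have h5 : ∑ i ∈ range θ, (θ - i) = ∑ i ∈ range (θ + 1), i := by
      rw [← sum_range_reflect, sum_range_succ']
      rw [add_zero]
      apply sum_congr rfl
      intro i hi
      have := mem_range.1 hi
      omega
    rw [h5, sum_range_id]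
    congr 1
    rw [mul_comm]
    simp
  · intro a _ a' _ hne
    show Disjoint _ _
    rw [disjoint_left]
    rintro ⟨u, v⟩ h1 h2
    obtain ⟨_, _, h1'⟩ := mem_image.1 h1
    obtain ⟨_, _, h2'⟩ := mem_image.1 h2
    rw [Prod.mk.injEq] at h1' h2'
    exact hne (h1'.1.trans h2'.1.symm)

lemma pat_card {e : ℕ} (θ : ℕ) (h : θ ≤ n) (x : Fin e → Fin n) :
    (pat θ x).card = θ * (θ + 1) / 2 := by
  unfold pat
  rw [card_image_of_injective, tri_card n θ h]
  rintro ⟨a, b⟩ ⟨a', b'⟩ hab
  obtain ⟨_, h1, h2⟩ := pt_inj hab
  simp only at h1 h2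
  rw [h1, h2]

lemma pat_disjoint {e : ℕ} (θ : ℕ) (x x' : Fin e → Fin n) (h : x ≠ x') :
    Disjoint (pat θ x) (pat θ x') := by
  rw [disjoint_left]
  intro v h1 h2
  obtain ⟨q, _, hq⟩ := mem_image.1 h1
  obtain ⟨q', _, hq'⟩ := mem_image.1 h2
  exact h (pt_inj (hq.trans hq'.symm)).1

/-- The pattern opens the plane. -/
theorem plane_final {e : ℕ} (θ : ℕ) (h : θ ≤ n) (x : Fin e → Fin n)
    (ω : (Fin (e + 2) → Fin n) → Bool) (hω : ∀ v ∈ pat θ x, ω v = true) :
    ∀ a b : Fin n, pt x a b ∈ final θ ω := by
  have key : ∀ k : ℕ, ∀ a : Fin n, a.val = k → ∀ b : Fin n, pt x a b ∈ final θ ω := by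
    intro k
    induction k using Nat.strong_induction_on with
    | _ k ih =>
      intro a ha b
      have hopen : ∀ b' : Fin n, a.val + b'.val < θ → pt x a b' ∈ final θ ω := by
        intro b' hb'
        apply final_of_open
        apply hω
        exact mem_image.2 ⟨(a, b'), mem_filter.2 ⟨mem_univ _, hb'⟩, rfl⟩
      by_cases hb : a.val + b.val < θ
      · exact hopen b hb
      have hn : 0 < n := a.pos
      let g : ℕ → Fin (e + 2) → Fin n := fun i =>
        if i < a.val then pt x ⟨i % n, Nat.mod_lt _ hn⟩ b
        else pt x a ⟨(i - a.val) % n, Nat.mod_lt _ hn⟩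
      have hg1 : ∀ i, i < θ → i < a.val → g i = pt x ⟨i % n, Nat.mod_lt _ hn⟩ b :=
        fun i _ h2 => if_pos h2
      have hg2 : ∀ i, i < θ → ¬ i < a.val →
          g i = pt x a ⟨(i - a.val) % n, Nat.mod_lt _ hn⟩ := fun i _ h2 => if_neg h2
      apply final_closed g
      · intro i hi j hj hij
        rw [coe_range, Set.mem_Iio] at hi hj
        have hin : i % n = i := Nat.mod_eq_of_lt (by omega)
        have hjn : j % n = j := Nat.mod_eq_of_lt (by omega)
        have han := a.isLt
        by_cases hia : i < a.val <;> by_cases hja : j < a.val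
        · rw [hg1 i hi hia, hg1 j hj hja] at hij
          have := congrArg Fin.val (pt_inj hij).2.1
          simp only at this
          omega
        · rw [hg1 i hi hia, hg2 j hj hja] at hij
          have := congrArg Fin.val (pt_inj hij).2.1
          simp only at this
          omega
        · rw [hg2 i hi hia, hg1 j hj hja] at hij
          have := congrArg Fin.val (pt_inj hij).2.1
          simp only at this
          omega
        · rw [hg2 i hi hia, hg2 j hj hja] at hij
          have := congrArg Fin.val (pt_inj hij).2.2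
          simp only at this
          have h1 : (i - a.val) % n = i - a.val := Nat.mod_eq_of_lt (by omega)
          have h2 : (j - a.val) % n = j - a.val := Nat.mod_eq_of_lt (by omega)
          omega
      · intro i hi
        rw [mem_range] at hi
        have hin : i % n = i := Nat.mod_eq_of_lt (by omega)
        by_cases hia : i < a.val
        · rw [hg1 i hi hia]
          apply adj_first
          intro hne
          have := congrArg Fin.val hne
          simp only at this
          omega
        · rw [hg2 i hi hia]
          apply adj_second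
          intro hne
          have := congrArg Fin.val hne
          simp only at this
          have h1 : (i - a.val) % n = i - a.val := Nat.mod_eq_of_lt (by omega)
          omega
      · intro i hi
        rw [mem_range] at hi
        have hin : i % n = i := Nat.mod_eq_of_lt (by omega)
        by_cases hia : i < a.val
        · rw [hg1 i hi hia]
          exact ih i (by omega) _ hin b
        · rw [hg2 i hi hia]
          apply hopen
          simp only
          have h1 : (i - a.val) % n = i - a.val := Nat.mod_eq_of_lt (by omega)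
          omega
  intro a b
  exact key a.val a rfl b

/-- If the pattern of some plane is open then some two-dimensional subgraph is finally open. -/
theorem openSub_of_pat {e : ℕ} (θ : ℕ) (h : θ ≤ n) (hθ : 1 ≤ θ) (x : Fin e → Fin n)
    (ω : (Fin (e + 2) → Fin n) → Bool) (hω : ∀ v ∈ pat θ x, ω v = true) :
    OpenSub θ 2 ω := by
  refine ⟨{0, 1}, ?_, pt x ⟨0, by omega⟩ ⟨0, by omega⟩, ?_⟩
  · rw [card_pair]
    intro h
    have := congrArg Fin.val h
    simp at this
  · intro v hv
    have hveq : v = pt x (v 0) (v 1) := by
      funext i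
      refine Fin.cases rfl (fun i => ?_) i
      refine Fin.cases rfl (fun i => ?_) i
      rw [hv i.succ.succ, pt_succ, pt_succ]
      rw [mem_insert, mem_singleton, not_or]
      constructor
      · exact Fin.succ_ne_zero _
      · intro hc
        have := congrArg Fin.val hc
        simp at this
    rw [hveq]
    exact plane_final θ h x ω hω _ _

end Q291.HT
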