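import Pool.Agent.Q291.HT.Defs

/-! Finite product probability. -/

namespace Q291.HT

open Finset

variable {V : Type*} [Fintype V]

/-- weight of a configuration -/
noncomputable def wt (p : ℝ) (ω : V → Bool) : ℝ := ∏ v, (if ω v = true then p else 1 - p)

lemma prob_eq (p : ℝ) (E : (V → Bool) → Prop) [DecidablePred E] [DecidableEq V] :
    prob p E = ∑ ω : V → Bool, if E ω then wt p ω else 0 := by
  unfold prob
  rw [sum_filter]
  apply Finset.sum_congr
  · congr
    funext a b
    exact Subsingleton.elim _ _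
  · intro ω _
    by_cases h : E ω <;> simp [h, wt]

lemma wt_nonneg {p : ℝ} (h0 : 0 ≤ p) (h1 : p ≤ 1) (ω : V → Bool) : 0 ≤ wt p ω := by
  unfold wt
  apply prod_nonneg
  intro v _
  split_ifs <;> linarith

lemma sum_wt_prod [DecidableEq V] (p : ℝ) (f : V → Bool → ℝ) :
    ∑ ω : V → Bool, wt p ω * ∏ v, f v (ω v) = ∏ v, (p * f v true + (1 - p) * f v false) := by
  unfold wt
  have h1 : ∀ ω : V → Bool, (∏ v, (if ω v = true then p else 1 - p)) * ∏ v, f v (ω v) =
      ∏ v, ((if ω v = true then p else 1 - p) * f v (ω v)) := fun ω => by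
    rw [prod_mul_distrib]
  simp_rw [h1]
  have h2 := Finset.prod_univ_sum (fun _ : V => (univ : Finset Bool))
    (fun v b => (if b = true then p else 1 - p) * f v b)
  rw [Fintype.piFinset_univ] at h2
  rw [← h2]
  apply prod_congr rfl
  intro v _
  simp

lemma sum_wt [DecidableEq V] (p : ℝ) : ∑ ω : V → Bool, wt p ω = 1 := by
  have := sum_wt_prod (V := V) p (fun _ _ => 1)
  simpa using this

lemma prob_nonneg {p : ℝ} (h0 : 0 ≤ p) (h1 : p ≤ 1) (E : (V → Bool) → Prop) :
    0 ≤ prob p E := by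
  classical
  rw [prob_eq]
  apply sum_nonneg
  intro ω _
  split_ifs
  · exact wt_nonneg h0 h1 ω
  · exact le_rfl

lemma prob_mono {p : ℝ} (h0 : 0 ≤ p) (h1 : p ≤ 1) {E F : (V → Bool) → Prop}
    (h : ∀ ω, E ω → F ω) : prob p E ≤ prob p F := by
  classical
  rw [prob_eq, prob_eq]
  apply sum_le_sum
  intro ω _
  by_cases hE : E ω
  · simp [hE, h ω hE]
  · rw [if_neg hE]
    split_ifs
    · exact wt_nonneg h0 h1 ω
    · exact le_rfl

lemma prob_not (p : ℝ) (E : (V → Bool) → Prop) : prob p (fun ω => ¬ E ω) = 1 - prob p E := by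
  classical
  rw [prob_eq, prob_eq, ← sum_wt (V := V) p, ← sum_sub_distrib]
  apply sum_congr rfl
  intro ω _
  by_cases hE : E ω <;> simp [hE]

lemma prob_union {p : ℝ} (h0 : 0 ≤ p) (h1 : p ≤ 1) {ι : Type*} (I : Finset ι)
    (E : ι → (V → Bool) → Prop) :
    prob p (fun ω => ∃ i ∈ I, E i ω) ≤ ∑ i ∈ I, prob p (E i) := by
  classical
  simp_rw [prob_eq]
  rw [sum_comm]
  apply sum_le_sum
  intro ω _
  split_ifs with h
  · obtain ⟨i, hi, hE⟩ := h
    have h2 : ∀ j ∈ I, 0 ≤ (if E j ω then wt p ω else 0) := by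
      intro j _
      split_ifs
      · exact wt_nonneg h0 h1 ω
      · exact le_rfl
    calc wt p ω = (if E i ω then wt p ω else 0) := by rw [if_pos hE]
      _ ≤ _ := single_le_sum h2 hi
  · apply sum_nonneg
    intro j _
    split_ifs
    · exact wt_nonneg h0 h1 ω
    · exact le_rfl

/-- the indicator that `T` is open -/
noncomputable def ind (T : Finset V) (ω : V → Bool) : ℝ := ∏ v ∈ T, (if ω v = true then 1 else 0)

omit [Fintype V] in
lemma ind_eq (T : Finset V) (ω : V → Bool) [Decidable (∀ v ∈ T, ω v = true)] :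
    ind T ω = if ∀ v ∈ T, ω v = true then 1 else 0 := by
  unfold ind
  split_ifs with h
  · apply prod_eq_one
    intro v hv
    rw [if_pos (h v hv)]
  · push Not at h
    obtain ⟨v, hv, hne⟩ := h
    exact prod_eq_zero hv (by rw [if_neg hne])

lemma sum_ind [DecidableEq V] (p : ℝ) (T : Finset V) :
    ∑ ω : V → Bool, wt p ω * ind T ω = p ^ T.card := by
  have h1 : ∀ ω : V → Bool, ind T ω =
      ∏ v, (if v ∈ T then (if ω v = true then (1:ℝ) else 0) else 1) := fun ω => by
    unfold ind
    rw [prod_ite_mem, univ_inter]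
  simp_rw [h1]
  rw [sum_wt_prod p (fun v b => if v ∈ T then (if b = true then (1:ℝ) else 0) else 1)]
  have h2 : ∀ v : V, (p * (if v ∈ T then (if true = true then (1:ℝ) else 0) else 1) +
      (1 - p) * (if v ∈ T then (if false = true then (1:ℝ) else 0) else 1)) =
      if v ∈ T then p else 1 := fun v => by
    by_cases h : v ∈ T <;> simp [h]
  rw [prod_congr rfl (fun v _ => h2 v)]
  rw [prod_ite_mem, univ_inter, prod_const]

lemma prob_forall (p : ℝ) (T : Finset V) :
    prob p (fun ω : V → Bool => ∀ v ∈ T, ω v = true) = p ^ T.card := by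
  classical
  rw [prob_eq, ← sum_ind p T]
  apply sum_congr rfl
  intro ω _
  rw [ind_eq]
  split_ifs <;> simp

omit [Fintype V] in
lemma ind_biUnion [DecidableEq V] {ι : Type*} (J : Finset ι) (T : ι → Finset V)
    (hT : ∀ i ∈ J, ∀ j ∈ J, i ≠ j → Disjoint (T i) (T j)) (ω : V → Bool) :
    ∏ j ∈ J, ind (T j) ω = ind (J.biUnion T) ω := by
  unfold ind
  rw [prod_biUnion]
  intro i hi j hj hij
  exact hT i hi j hj hij

/-- Independence of disjoint patterns. -/
lemma prob_disjoint (p : ℝ) {ι : Type*} [DecidableEq ι] (J : Finset ι) (T : ι → Finset V)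
    (m : ℕ) (hm : ∀ j ∈ J, (T j).card = m)
    (hT : ∀ i ∈ J, ∀ j ∈ J, i ≠ j → Disjoint (T i) (T j)) :
    prob p (fun ω : V → Bool => ∀ j ∈ J, ¬ ∀ v ∈ T j, ω v = true) = (1 - p ^ m) ^ J.card := by
  classical
  have h1 : ∀ ω : V → Bool, (if (∀ j ∈ J, ¬ ∀ v ∈ T j, ω v = true) then wt p ω else 0) =
      wt p ω * ∏ j ∈ J, (1 - ind (T j) ω) := fun ω => by
    split_ifs with h
    · rw [prod_eq_one, mul_one]
      intro j hj
      rw [ind_eq, if_neg (h j hj), sub_zero]
    · push Not at h
      obtain ⟨j, hj, hall⟩ := h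
      rw [prod_eq_zero hj, mul_zero]
      rw [ind_eq, if_pos hall, sub_self]
  rw [prob_eq]
  simp_rw [h1]
  have h2 : ∀ ω : V → Bool, ∏ j ∈ J, (1 - ind (T j) ω) =
      ∑ K ∈ J.powerset, (-1) ^ K.card * ind (K.biUnion T) ω := fun ω => by
    have h3 : ∀ j, 1 - ind (T j) ω = -ind (T j) ω + 1 := fun j => by ring
    simp_rw [h3]
    rw [prod_add]
    apply sum_congr rfl
    intro K hK
    rw [prod_const_one, mul_one, ← ind_biUnion K T (fun i hi j hj hij =>
      hT i (mem_powerset.1 hK hi) j (mem_powerset.1 hK hj) hij)]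
    rw [prod_neg]
  simp_rw [h2, mul_sum]
  rw [sum_comm]
  have h4 : ∀ K ∈ J.powerset, ∑ ω : V → Bool, wt p ω * ((-1) ^ K.card * ind (K.biUnion T) ω) =
      (-(p ^ m)) ^ K.card := fun K hK => by
    have h5 : ∀ ω : V → Bool, wt p ω * ((-1) ^ K.card * ind (K.biUnion T) ω) =
        (-1) ^ K.card * (wt p ω * ind (K.biUnion T) ω) := fun ω => by ring
    simp_rw [h5]
    rw [← mul_sum, sum_ind, card_biUnion (fun i hi j hj hij =>
      hT i (mem_powerset.1 hK hi) j (mem_powerset.1 hK hj) hij)]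
    rw [sum_congr rfl (fun j hj => hm j (mem_powerset.1 hK hj)), sum_const, smul_eq_mul,
      mul_comm K.card m, pow_mul, neg_pow (p ^ m)]
  rw [sum_congr rfl h4]
  have h6 := prod_add (fun _ : ι => -(p ^ m)) (fun _ => (1:ℝ)) J
  simp only [prod_const, one_pow, mul_one] at h6
  rw [← h6]
  congr 1
  ring

lemma prob_continuous (E : (V → Bool) → Prop) : Continuous fun p : ℝ => prob p E := by
  classical
  unfold prob
  apply continuous_finsetSum
  intro ω _
  apply continuous_finsetProd
  intro v _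
  split_ifs
  · exact continuous_id
  · exact continuous_const.sub continuous_id

lemma prob_zero (E : (V → Bool) → Prop) (h : ¬ E (fun _ => false)) : prob 0 E = 0 := by
  classical
  rw [prob_eq]
  apply sum_eq_zero
  intro ω _
  by_cases hω : ω = fun _ => false
  · rw [hω, if_neg h]
  · have : ∃ v, ω v = true := by
      by_contra hc
      push Not at hc
      exact hω (funext fun v => by simpa using hc v)
    obtain ⟨v, hv⟩ := this
    have h0 : wt 0 ω = 0 := prod_eq_zero (mem_univ v) (by rw [if_pos hv])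
    rw [h0]
    simp

lemma prob_one (E : (V → Bool) → Prop) (h : E (fun _ => true)) : prob 1 E = 1 := by
  classical
  have h1 : prob 1 (fun ω : V → Bool => ∀ v ∈ (univ : Finset V), ω v = true) ≤ prob 1 E := by
    apply prob_mono (by norm_num) le_rfl
    intro ω hω
    have : ω = fun _ => true := funext fun v => hω v (mem_univ v)
    rw [this]; exact h
  rw [prob_forall, one_pow] at h1
  have h2 : prob 1 E ≤ prob 1 (fun _ : V → Bool => True) :=
    prob_mono (by norm_num) le_rfl (fun _ _ => trivial)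
  have h3 : prob 1 (fun _ : V → Bool => True) = 1 := by
    rw [prob_eq]
    simp only [if_true]
    exact sum_wt 1
  linarith

lemma exists_half (E : (V → Bool) → Prop) (h0 : ¬ E (fun _ => false)) (h1 : E (fun _ => true)) :
    ∃ p : ℝ, 0 ≤ p ∧ p ≤ 1 ∧ prob p E = 1 / 2 := by
  have hc : ContinuousOn (fun p : ℝ => prob p E) (Set.Icc 0 1) :=
    (prob_continuous E).continuousOn
  have := intermediate_value_Icc (zero_le_one (α := ℝ)) hc
  rw [prob_zero E h0, prob_one E h1] at this
  obtain ⟨p, hp, hpe⟩ := this (show (1/2 : ℝ) ∈ Set.Icc (0:ℝ) 1 by constructor <;> norm_num)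
  exact ⟨p, hp.1, hp.2, hpe⟩

end Q291.HT
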